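import Pool.Agent.Q149.MMc

/-!
# Positivity of mirror deformed Markov numbers

For a triple `(a, b, c)` of the mirror Markov tree there are polynomials `T_a`, `T_b`, `T_c` of
degrees `deg a + 1`, `deg b + 1`, `deg c + 1` such that the two new entries are
`T_a c - q^(deg a + 1) b` and `T_b c - q^(deg b + 1) a`; the polynomials of the left child are the
mirror image of `T_a`, `T_c` and `T_a T_c - q^(deg a + 1) T_b`, and exchanging `a` and `b` replaces
`T_c` by its mirror image.  The coefficientwise inequalities `T_b ≤ T_c`, `T_a ≤ (mirror of T_c)`,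
`a ≤ c`, `b ≤ c` and `1 + q^(deg) ≤ T` are preserved.
-/

set_option autoImplicit false

open Polynomial LaurentPolynomial

namespace Pool.Agent.Results.MP_99184a_co.MirrorMarkov

/-- the symmetrisation `X(q) = x(q) x(q⁻¹)`, a Laurent polynomial -/
noncomputable def sym (x : ℤ[X]) : ℤ[T;T⁻¹] := toLaurent x * invert (toLaurent x)

/-- `n = q^(deg c) (q^s B(q) + C(q)) / ã(q)`, where `ã` is the mirror image of `a` -/
def IsMutation (s : ℤ) (a b c n : ℤ[X]) : Prop :=
  toLaurent n * toLaurent a.reverse = T (c.natDegree : ℤ) * (T s * sym b + sym c)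

/-- The triples `(a, b, c)` of the mirror Markov tree from `(1, 1 + q, 1 + 2q + 2q²)` on, with the
sign `s = ± 1` of the mutation which produced the triple: the left-edge child is obtained with the
sign `s`, the right-edge child with the sign `-s`. -/
inductive InTree : ℤ[X] → ℤ[X] → ℤ[X] → ℤ → Prop
  | root : InTree 1 (1 + X) (1 + 2 * X + 2 * X ^ 2) 1
  | left {a b c n : ℤ[X]} {s : ℤ} : InTree a b c s → IsMutation s b a c n → InTree a c n s
  | right {a b c n : ℤ[X]} {s : ℤ} :
      InTree a b c s → IsMutation (-s) a b c n → InTree b c n (-s)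

/-- the mirror deformed Markov numbers: the entries of the triples `(1, 1, 1)`, `(1, 1, 1 + q)` and
of the triples above -/
def IsMirrorMarkov (m : ℤ[X]) : Prop :=
  m = 1 ∨ m = 1 + X ∨ ∃ a b c s, InTree a b c s ∧ (m = a ∨ m = b ∨ m = c)

open Pool.Agent.Q149.MM in
theorem mut_nxt {a b c Ta Tb Tc : ℤ[X]} {s : ℤ} (h : Good a b c Ta Tb Tc s) (n : ℤ[X]) :
    IsMutation s b a c n ↔ n = nxt a b c Ta := by
  have hb0 : b ≠ 0 := by
    rintro rfl
    have := h.pb 0 (Nat.zero_le _)
    simp at this
  have hne : toLaurent b.reverse ≠ 0 := by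
    rw [Ne, ← map_zero (toLaurent (R := ℤ)), toLaurent_injective.eq_iff, reverse_eq_zero]
    exact hb0
  have key : toLaurent (nxt a b c Ta) * toLaurent b.reverse =
      T (c.natDegree : ℤ) * (T s * sym a + sym c) := by
    rw [LaurentPolynomial.toLaurent_reverse, ← mul_assoc, h.mut]
    have e : (T (c.natDegree : ℤ) : ℤ[T;T⁻¹]) =
        T ((a.natDegree : ℤ) + 1) * T (b.natDegree : ℤ) := by
      rw [← T_add, h.dc]
      congr 1
      push_cast
      ring
    rw [e]
    show _ = T ((a.natDegree : ℤ) + 1) * T (b.natDegree : ℤ) *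
      (T s * Pool.Agent.Q149.MM.sym a + Pool.Agent.Q149.MM.sym c)
    ring
  unfold IsMutation
  rw [← key]
  constructor
  · intro h1
    exact toLaurent_injective (mul_right_cancel₀ hne h1)
  · rintro rfl
    rfl

open Pool.Agent.Q149.MM in
theorem good_of_tree {a b c : ℤ[X]} {s : ℤ} (h : InTree a b c s) :
    ∃ Ta Tb Tc, Good a b c Ta Tb Tc s := by
  induction h with
  | root => exact ⟨_, _, _, root⟩
  | left _ hn ih =>
    obtain ⟨Ta, Tb, Tc, hg⟩ := ih
    rw [mut_nxt hg] at hn
    subst hn
    exact ⟨_, _, _, hg.left⟩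
  | right _ hn ih =>
    obtain ⟨Ta, Tb, Tc, hg⟩ := ih
    rw [mut_nxt hg.swap] at hn
    subst hn
    exact ⟨_, _, _, hg.swap.left⟩

/-- **Positivity of mirror deformed Markov numbers.**  The first two mutations are the stated ones;
every triple of the tree has exactly one left-edge child and one right-edge child (the divisions
are exact); and all coefficients of all mirror deformed Markov numbers are positive. -/
theorem result :
    (IsMutation 1 1 1 1 (1 + X) ∧ IsMutation 1 1 1 (1 + X) (1 + 2 * X + 2 * X ^ 2)) ∧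
    (∀ (a b c : ℤ[X]) (s : ℤ), InTree a b c s → a ≠ 0 ∧ b ≠ 0 ∧
      (∃! n, IsMutation s b a c n) ∧ (∃! n, IsMutation (-s) a b c n)) ∧
    (∀ m : ℤ[X], IsMirrorMarkov m → ∀ j ≤ m.natDegree, 0 < m.coeff j) := by
  refine ⟨⟨?_, ?_⟩, ?_, ?_⟩
  · unfold IsMutation sym
    have e : (1 : ℤ[X]).reverse = 1 := by
      rw [← map_one Polynomial.C, reverse_C]
    rw [e]
    simp only [map_add, map_one, toLaurent_X, natDegree_one, Nat.cast_zero, T_zero]
    ring
  · unfold IsMutation sym
    have e : (1 : ℤ[X]).reverse = 1 := by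
      rw [← map_one Polynomial.C, reverse_C]
    have hT := Pool.Agent.Q149.MM.T_cancel (1 : ℤ)
    rw [e, Pool.Agent.Q149.MM.deg_b]
    simp only [map_add, map_mul, map_pow, map_ofNat, map_one, toLaurent_X, invert_T, Nat.cast_one]
    linear_combination (-1 - T 1 : ℤ[T;T⁻¹]) * hT
  · intro a b c s h
    obtain ⟨Ta, Tb, Tc, hg⟩ := good_of_tree h
    refine ⟨?_, ?_, ?_, ?_⟩
    · rintro rfl
      have := hg.pa 0 (Nat.zero_le _)
      simp at this
    · rintro rfl
      have := hg.pb 0 (Nat.zero_le _)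
      simp at this
    · refine ⟨Pool.Agent.Q149.MM.nxt a b c Ta, (mut_nxt hg _).2 rfl, fun n hn => ?_⟩
      exact (mut_nxt hg n).1 hn
    · refine ⟨Pool.Agent.Q149.MM.nxt b a c Tb, (mut_nxt hg.swap _).2 rfl, fun n hn => ?_⟩
      exact (mut_nxt hg.swap n).1 hn
  · rintro m (rfl | rfl | ⟨a, b, c, s, h, hm⟩)
    · intro j hj
      rw [natDegree_one] at hj
      interval_cases j
      simp
    · exact Pool.Agent.Q149.MM.root_pb
    · obtain ⟨Ta, Tb, Tc, hg⟩ := good_of_tree h
      rcases hm with rfl | rfl | rfl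
      · exact hg.pa
      · exact hg.pb
      · exact hg.pc

end Pool.Agent.Results.MP_99184a_co.MirrorMarkov
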